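import Mathlib

/-!
# Largest induced subtree, radius and minimum degree (MP_40785c_co, Q1)

Every finite connected graph `G` with at least two vertices satisfies
`tree(G) ≥ 2 rad(G) / δ(G)`.
-/

namespace Pool.Agent.Results.MP_40785c_co.InducedTree

open Finset

variable {V : Type*} [DecidableEq V]

/-! ### Induced trees built by adding leaves -/

/-- vertex sets obtained from a single vertex by adding leaves -/
inductive ITree (G : SimpleGraph V) : Finset V → Prop
  | single (v : V) : ITree G {v}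
  | leaf (S : Finset V) (v u : V) : ITree G S → v ∉ S → u ∈ S → G.Adj v u →
      (∀ w ∈ S, G.Adj v w → w = u) → ITree G (insert v S)

theorem ITree.isTree {G : SimpleGraph V} {S : Finset V} (h : ITree G S) :
    (G.induce (S : Set V)).IsTree := by
  induction h with
  | single v =>
    have : Subsingleton ((({v} : Finset V) : Set V)) := by
      constructor
      rintro ⟨a, ha⟩ ⟨b, hb⟩
      simp only [coe_singleton, Set.mem_singleton_iff] at ha hb
      subst ha; subst hb; rfl
    have : Nonempty ((({v} : Finset V) : Set V)) := ⟨⟨v, by simp⟩⟩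
    exact SimpleGraph.IsTree.of_subsingleton
  | leaf S v u hS hv hu huv huniq ih =>
    have hsub : (S : Set V) ⊆ ((insert v S : Finset V) : Set V) := by
      intro w hw
      simp only [coe_insert, Set.mem_insert_iff]
      exact Or.inr hw
    have hvm : v ∈ ((insert v S : Finset V) : Set V) := by simp
    have hum : u ∈ ((insert v S : Finset V) : Set V) := hsub hu
    constructor
    · rw [SimpleGraph.connected_iff_exists_forall_reachable]
      refine ⟨⟨u, hum⟩, ?_⟩
      rintro ⟨w, hw⟩
      have hw' := hw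
      simp only [coe_insert, Set.mem_insert_iff] at hw'
      rcases hw' with rfl | hw'
      · apply SimpleGraph.Adj.reachable
        exact huv.symm
      · have h1 := ih.connected.preconnected ⟨u, hu⟩ ⟨w, hw'⟩
        have h2 := h1.map (G.induceHomOfLE hsub).toHom
        exact h2
    · intro a c hc
      by_cases hva : (⟨v, hvm⟩ : ((insert v S : Finset V) : Set V)) ∈ c.support
      · have hc' := hc.rotate hva
        set c' := c.rotate _ hva with hc'def
        have h1 := hc'.snd_ne_penultimate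
        have hnn : ¬ c'.Nil := hc'.not_nil
        have h2 := c'.adj_snd hnn
        have h3 := (c'.adj_penultimate hnn).symm
        have key : ∀ z : ((insert v S : Finset V) : Set V),
            (G.induce ((insert v S : Finset V) : Set V)).Adj ⟨v, hvm⟩ z → z.1 = u := by
          rintro ⟨z, hz⟩ hadj
          have hadj' : G.Adj v z := hadj
          simp only [coe_insert, Set.mem_insert_iff] at hz
          rcases hz with rfl | hz
          · exact absurd hadj' (G.irrefl)
          · exact huniq z hz hadj'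
        exact h1 (Subtype.ext ((key _ h2).trans (key _ h3).symm))
      · have hinj : Function.Injective (SimpleGraph.Embedding.induce (G := G)
            ((insert v S : Finset V) : Set V)).toHom := Subtype.val_injective
        have h1 := hc.map hinj
        set c1 := c.map (SimpleGraph.Embedding.induce (G := G)
            ((insert v S : Finset V) : Set V)).toHom with hc1
        have hsup : ∀ x ∈ c1.support, x ∈ (S : Set V) := by
          intro x hx
          rw [hc1, SimpleGraph.Walk.support_map, List.mem_map] at hx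
          obtain ⟨⟨y, hy⟩, hy1, hy2⟩ := hx
          have hy3 : y = x := hy2
          subst hy3
          have hy' := hy
          simp only [coe_insert, Set.mem_insert_iff] at hy'
          rcases hy' with rfl | hy'
          · exact absurd hy1 hva
          · exact hy'
        have h2 : (c1.induce (S : Set V) hsup).IsCycle := by
          apply SimpleGraph.Walk.IsCycle.of_map (f := (SimpleGraph.Embedding.induce (G := G)
            (S : Set V)).toHom)
          rw [SimpleGraph.Walk.map_induce]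
          exact h1
        exact ih.isAcyclic _ h2

/-- Attaching a segment of an induced path to an induced tree at the vertex `n`. -/
theorem ITree.attach_right {G : SimpleGraph V} {T : Finset V} (hT : ITree G T) (y : ℕ → V)
    (n : V) (hn : n ∈ T) (s : ℕ) :
    ∀ t : ℕ, s ≤ t →
      (∀ i j, s ≤ i → i ≤ t → s ≤ j → j ≤ t → (G.Adj (y i) (y j) ↔ (i + 1 = j ∨ j + 1 = i))) →
      (∀ i j, s ≤ i → i ≤ t → s ≤ j → j ≤ t → y i = y j → i = j) →
      (∀ i, s ≤ i → i ≤ t → y i ∉ T) →
      (∀ i, s ≤ i → i ≤ t → ∀ w ∈ T, G.Adj (y i) w → i = s ∧ w = n) →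
      G.Adj (y s) n → ITree G (T ∪ (Icc s t).image y) := by
  intro t hst
  induction t, hst using Nat.le_induction with
  | base =>
    intro h1 h2 h3 h4 h5
    have e : T ∪ (Icc s s).image y = insert (y s) T := by
      ext w
      simp only [Icc_self, image_singleton, mem_union, mem_singleton, mem_insert]
      tauto
    rw [e]
    exact ITree.leaf T (y s) n hT (h3 s le_rfl le_rfl) hn h5
      (fun w hw hadj => (h4 s le_rfl le_rfl w hw hadj).2)
  | succ t hst ih =>
    intro h1 h2 h3 h4 h5
    have ih' := ih (fun i j a b c d => h1 i j a (by omega) c (by omega))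
      (fun i j a b c d => h2 i j a (by omega) c (by omega))
      (fun i a b => h3 i a (by omega)) (fun i a b => h4 i a (by omega)) h5
    have e : T ∪ (Icc s (t + 1)).image y = insert (y (t + 1)) (T ∪ (Icc s t).image y) := by
      ext w
      simp only [mem_union, mem_image, mem_Icc, mem_insert]
      constructor
      · rintro (h | ⟨i, ⟨hi1, hi2⟩, rfl⟩)
        · tauto
        · by_cases hi : i = t + 1
          · left; rw [hi]
          · right; right
            exact ⟨i, ⟨hi1, by omega⟩, rfl⟩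
      · rintro (rfl | h | ⟨i, ⟨hi1, hi2⟩, rfl⟩)
        · right; exact ⟨t + 1, ⟨by omega, le_rfl⟩, rfl⟩
        · tauto
        · right; exact ⟨i, ⟨hi1, by omega⟩, rfl⟩
    rw [e]
    refine ITree.leaf _ (y (t + 1)) (y t) ih' ?_ ?_ ?_ ?_
    · simp only [mem_union, mem_image, mem_Icc, not_or, not_exists, not_and]
      refine ⟨h3 _ (by omega) le_rfl, ?_⟩
      rintro i ⟨hi1, hi2⟩ h
      have := h2 i (t + 1) hi1 (by omega) (by omega) le_rfl h
      omega
    · simp only [mem_union, mem_image, mem_Icc]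
      right; exact ⟨t, ⟨hst, le_rfl⟩, rfl⟩
    · rw [h1 (t + 1) t (by omega) le_rfl hst (by omega)]
      right; rfl
    · intro w hw hadj
      simp only [mem_union, mem_image, mem_Icc] at hw
      rcases hw with hw | ⟨i, ⟨hi1, hi2⟩, rfl⟩
      · have := (h4 (t + 1) (by omega) le_rfl w hw hadj).1
        omega
      · rw [h1 (t + 1) i (by omega) le_rfl hi1 (by omega)] at hadj
        have : i = t := by omega
        rw [this]

/-- An induced path is an induced tree. -/
theorem ITree.path {G : SimpleGraph V} (y : ℕ → V) (s : ℕ) :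
    ∀ t : ℕ, s ≤ t →
      (∀ i j, s ≤ i → i ≤ t → s ≤ j → j ≤ t → (G.Adj (y i) (y j) ↔ (i + 1 = j ∨ j + 1 = i))) →
      (∀ i j, s ≤ i → i ≤ t → s ≤ j → j ≤ t → y i = y j → i = j) →
      ITree G ((Icc s t).image y) := by
  intro t hst
  induction t, hst using Nat.le_induction with
  | base =>
    intro _ _
    rw [Icc_self, image_singleton]
    exact ITree.single _
  | succ t hst ih =>
    intro h1 h2
    have ih' := ih (fun i j a b c d => h1 i j a (by omega) c (by omega))
      (fun i j a b c d => h2 i j a (by omega) c (by omega))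
    have e : (Icc s (t + 1)).image y = insert (y (t + 1)) ((Icc s t).image y) := by
      ext w
      simp only [mem_image, mem_Icc, mem_insert]
      constructor
      · rintro ⟨i, ⟨hi1, hi2⟩, rfl⟩
        by_cases hi : i = t + 1
        · left; rw [hi]
        · right
          exact ⟨i, ⟨hi1, by omega⟩, rfl⟩
      · rintro (rfl | ⟨i, ⟨hi1, hi2⟩, rfl⟩)
        · exact ⟨t + 1, ⟨by omega, le_rfl⟩, rfl⟩
        · exact ⟨i, ⟨hi1, by omega⟩, rfl⟩
    rw [e]
    refine ITree.leaf _ (y (t + 1)) (y t) ih' ?_ ?_ ?_ ?_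
    · simp only [mem_image, mem_Icc, not_exists, not_and]
      rintro i ⟨hi1, hi2⟩ h
      have := h2 i (t + 1) hi1 (by omega) (by omega) le_rfl h
      omega
    · simp only [mem_image, mem_Icc]
      exact ⟨t, ⟨hst, le_rfl⟩, rfl⟩
    · rw [h1 (t + 1) t (by omega) le_rfl hst (by omega)]
      right; rfl
    · intro w hw hadj
      simp only [mem_image, mem_Icc] at hw
      obtain ⟨i, ⟨hi1, hi2⟩, rfl⟩ := hw
      rw [h1 (t + 1) i (by omega) le_rfl hi1 (by omega)] at hadj
      have : i = t := by omega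
      rw [this]

/-- Attaching a segment of an induced path which touches `T` only by the edge from its vertex
`y c` to `n`. -/
theorem ITree.attach {G : SimpleGraph V} {T : Finset V} (hT : ITree G T) (y : ℕ → V)
    (n : V) (hn : n ∈ T) (s c t : ℕ) (hsc : s ≤ c) (hct : c ≤ t)
    (h1 : ∀ i j, s ≤ i → i ≤ t → s ≤ j → j ≤ t → (G.Adj (y i) (y j) ↔ (i + 1 = j ∨ j + 1 = i)))
    (h2 : ∀ i j, s ≤ i → i ≤ t → s ≤ j → j ≤ t → y i = y j → i = j)
    (h3 : ∀ i, s ≤ i → i ≤ t → y i ∉ T)
    (h4 : ∀ i, s ≤ i → i ≤ t → ∀ w ∈ T, G.Adj (y i) w → i = c ∧ w = n)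
    (h5 : G.Adj (y c) n) : ITree G (T ∪ (Icc s t).image y) := by
  have hR : ITree G (T ∪ (Icc c t).image y) := by
    refine hT.attach_right y n hn c t hct ?_ ?_ ?_ ?_ h5
    · exact fun i j a b c d => h1 i j (by omega) b (by omega) d
    · exact fun i j a b c d => h2 i j (by omega) b (by omega) d
    · exact fun i a b => h3 i (by omega) b
    · exact fun i a b => h4 i (by omega) b
  -- extend to the left
  have key : ∀ k : ℕ, k ≤ c - s → ITree G (T ∪ (Icc (c - k) t).image y) := by
    intro k
    induction k with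
    | zero => intro _; exact hR
    | succ k ih =>
      intro hk
      have ih' := ih (by omega)
      have e : T ∪ (Icc (c - (k + 1)) t).image y =
          insert (y (c - (k + 1))) (T ∪ (Icc (c - k) t).image y) := by
        ext w
        simp only [mem_union, mem_image, mem_Icc, mem_insert]
        constructor
        · rintro (h | ⟨i, ⟨hi1, hi2⟩, rfl⟩)
          · tauto
          · by_cases hi : i = c - (k + 1)
            · left; rw [hi]
            · right; right
              exact ⟨i, ⟨by omega, hi2⟩, rfl⟩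
        · rintro (rfl | h | ⟨i, ⟨hi1, hi2⟩, rfl⟩)
          · right; exact ⟨c - (k + 1), ⟨le_rfl, by omega⟩, rfl⟩
          · tauto
          · right; exact ⟨i, ⟨by omega, hi2⟩, rfl⟩
      rw [e]
      refine ITree.leaf _ (y (c - (k + 1))) (y (c - k)) ih' ?_ ?_ ?_ ?_
      · simp only [mem_union, mem_image, mem_Icc, not_or, not_exists, not_and]
        refine ⟨h3 _ (by omega) (by omega), ?_⟩
        rintro i ⟨hi1, hi2⟩ h
        have := h2 i (c - (k + 1)) (by omega) hi2 (by omega) (by omega) h
        omega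
      · simp only [mem_union, mem_image, mem_Icc]
        right; exact ⟨c - k, ⟨le_rfl, by omega⟩, rfl⟩
      · rw [h1 (c - (k + 1)) (c - k) (by omega) (by omega) (by omega) (by omega)]
        left; omega
      · intro w hw hadj
        simp only [mem_union, mem_image, mem_Icc] at hw
        rcases hw with hw | ⟨i, ⟨hi1, hi2⟩, rfl⟩
        · have := (h4 (c - (k + 1)) (by omega) (by omega) w hw hadj).1
          omega
        · rw [h1 (c - (k + 1)) i (by omega) (by omega) (by omega) hi2] at hadj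
          have : i = c - k := by omega
          rw [this]
  have := key (c - s) le_rfl
  rwa [show c - (c - s) = s by omega] at this


/-! ### The combinatorial core -/

section core

variable {G : SimpleGraph V} {y z : ℕ → V} {N ρ : ℕ}

theorem card_img (y : ℕ → V) (s t : ℕ)
    (h2 : ∀ i j, s ≤ i → i ≤ t → s ≤ j → j ≤ t → y i = y j → i = j) :
    ((Icc s t).image y).card = t + 1 - s := by
  rw [card_image_of_injOn, Nat.card_Icc]
  intro i hi j hj h
  simp only [coe_Icc, Set.mem_Icc] at hi hj
  exact h2 i j hi.1 hi.2 hj.1 hj.2 h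

theorem one_piece (hρ : 1 ≤ ρ)
    (hy : ∀ i j, i ≤ N → j ≤ N → (G.Adj (y i) (y j) ↔ (i + 1 = j ∨ j + 1 = i)))
    (hyi : ∀ i j, i ≤ N → j ≤ N → y i = y j → i = j)
    (hz : ∀ i j, 1 ≤ i → i ≤ ρ → 1 ≤ j → j ≤ ρ → (G.Adj (z i) (z j) ↔ (i + 1 = j ∨ j + 1 = i)))
    (hzi : ∀ i j, 1 ≤ i → i ≤ ρ → 1 ≤ j → j ≤ ρ → z i = z j → i = j)
    (hyz : ∀ i j, i ≤ N → 1 ≤ j → j ≤ ρ → y i ≠ z j)
    (hyz2 : ∀ i j, i ≤ N → 2 ≤ j → j ≤ ρ → ¬ G.Adj (y i) (z j))
    (s c t : ℕ) (hsc : s ≤ c) (hct : c ≤ t) (htN : t ≤ N) (hadj : G.Adj (y c) (z 1))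
    (honly : ∀ i, s ≤ i → i ≤ t → G.Adj (y i) (z 1) → i = c) :
    ITree G ((Icc 1 ρ).image z ∪ (Icc s t).image y) ∧
      ((Icc 1 ρ).image z ∪ (Icc s t).image y).card = ρ + (t + 1 - s) := by
  have hZ : ITree G ((Icc 1 ρ).image z) := ITree.path z 1 ρ hρ hz hzi
  constructor
  · refine hZ.attach y (z 1) ?_ s c t hsc hct ?_ ?_ ?_ ?_ hadj
    · exact mem_image.2 ⟨1, mem_Icc.2 ⟨le_rfl, hρ⟩, rfl⟩
    · exact fun i j _ b _ d => hy i j (by omega) (by omega)
    · exact fun i j _ b _ d => hyi i j (by omega) (by omega)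
    · intro i hi1 hi2 hm
      simp only [mem_image, mem_Icc] at hm
      obtain ⟨j, ⟨hj1, hj2⟩, hj3⟩ := hm
      exact hyz i j (by omega) hj1 hj2 hj3.symm
    · intro i hi1 hi2 w hw ha
      simp only [mem_image, mem_Icc] at hw
      obtain ⟨j, ⟨hj1, hj2⟩, rfl⟩ := hw
      by_cases hj : j = 1
      · subst hj
        exact ⟨honly i hi1 hi2 ha, rfl⟩
      · exact absurd ha (hyz2 i j (by omega) (by omega) hj2)
  · rw [card_union_of_disjoint, card_img z 1 ρ hzi, card_img y s t
      (fun i j _ b _ d => hyi i j (by omega) (by omega))]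
    · omega
    · rw [disjoint_left]
      intro w hw1 hw2
      simp only [mem_image, mem_Icc] at hw1 hw2
      obtain ⟨j, ⟨hj1, hj2⟩, rfl⟩ := hw1
      obtain ⟨i, ⟨hi1, hi2⟩, hi3⟩ := hw2
      exact hyz i j (by omega) hj1 hj2 hi3

theorem two_piece (hρ : 1 ≤ ρ)
    (hy : ∀ i j, i ≤ N → j ≤ N → (G.Adj (y i) (y j) ↔ (i + 1 = j ∨ j + 1 = i)))
    (hyi : ∀ i j, i ≤ N → j ≤ N → y i = y j → i = j)
    (hz : ∀ i j, 1 ≤ i → i ≤ ρ → 1 ≤ j → j ≤ ρ → (G.Adj (z i) (z j) ↔ (i + 1 = j ∨ j + 1 = i)))
    (hzi : ∀ i j, 1 ≤ i → i ≤ ρ → 1 ≤ j → j ≤ ρ → z i = z j → i = j)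
    (hyz : ∀ i j, i ≤ N → 1 ≤ j → j ≤ ρ → y i ≠ z j)
    (hyz2 : ∀ i j, i ≤ N → 2 ≤ j → j ≤ ρ → ¬ G.Adj (y i) (z j))
    (s c t s' c' t' : ℕ) (hsc : s ≤ c) (hct : c ≤ t) (hts : t + 2 ≤ s') (hsc' : s' ≤ c')
    (hct' : c' ≤ t') (htN : t' ≤ N) (hadj : G.Adj (y c) (z 1)) (hadj' : G.Adj (y c') (z 1))
    (honly : ∀ i, s ≤ i → i ≤ t → G.Adj (y i) (z 1) → i = c)
    (honly' : ∀ i, s' ≤ i → i ≤ t' → G.Adj (y i) (z 1) → i = c') :
    ∃ T : Finset V, ITree G T ∧ T.card = ρ + (t + 1 - s) + (t' + 1 - s') := by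
  obtain ⟨hT, hTc⟩ := one_piece hρ hy hyi hz hzi hyz hyz2 s c t hsc hct (by omega) hadj honly
  set T := (Icc 1 ρ).image z ∪ (Icc s t).image y with hTdef
  have hnot : ∀ i, s' ≤ i → i ≤ t' → y i ∉ T := by
    intro i hi1 hi2 hm
    rw [hTdef] at hm
    simp only [mem_union, mem_image, mem_Icc] at hm
    rcases hm with ⟨j, ⟨hj1, hj2⟩, hj3⟩ | ⟨j, ⟨hj1, hj2⟩, hj3⟩
    · exact hyz i j (by omega) hj1 hj2 hj3.symm
    · have := hyi j i (by omega) (by omega) hj3
      omega
  refine ⟨T ∪ (Icc s' t').image y, ?_, ?_⟩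
  · refine hT.attach y (z 1) ?_ s' c' t' hsc' hct' ?_ ?_ hnot ?_ hadj'
    · rw [hTdef]
      exact mem_union_left _ (mem_image.2 ⟨1, mem_Icc.2 ⟨le_rfl, hρ⟩, rfl⟩)
    · exact fun i j _ b _ d => hy i j (by omega) (by omega)
    · exact fun i j _ b _ d => hyi i j (by omega) (by omega)
    · intro i hi1 hi2 w hw ha
      rw [hTdef] at hw
      simp only [mem_union, mem_image, mem_Icc] at hw
      rcases hw with ⟨j, ⟨hj1, hj2⟩, rfl⟩ | ⟨j, ⟨hj1, hj2⟩, rfl⟩
      · by_cases hj : j = 1
        · subst hj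
          exact ⟨honly' i hi1 hi2 ha, rfl⟩
        · exact absurd ha (hyz2 i j (by omega) (by omega) hj2)
      · rw [hy i j (by omega) (by omega)] at ha
        omega
  · rw [card_union_of_disjoint, hTc, card_img y s' t'
      (fun i j _ b _ d => hyi i j (by omega) (by omega))]
    rw [disjoint_left]
    intro w hw1 hw2
    simp only [mem_image, mem_Icc] at hw2
    obtain ⟨i, ⟨hi1, hi2⟩, rfl⟩ := hw2
    exact hnot i hi1 hi2 hw1

theorem core (K r : ℕ) (hK : 1 ≤ K) (hKN : K ≤ N) (hρ : 1 ≤ ρ)
    (hy : ∀ i j, i ≤ N → j ≤ N → (G.Adj (y i) (y j) ↔ (i + 1 = j ∨ j + 1 = i)))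
    (hyi : ∀ i j, i ≤ N → j ≤ N → y i = y j → i = j)
    (hz : ∀ i j, 1 ≤ i → i ≤ ρ → 1 ≤ j → j ≤ ρ → (G.Adj (z i) (z j) ↔ (i + 1 = j ∨ j + 1 = i)))
    (hzi : ∀ i j, 1 ≤ i → i ≤ ρ → 1 ≤ j → j ≤ ρ → z i = z j → i = j)
    (hyz : ∀ i j, i ≤ N → 1 ≤ j → j ≤ ρ → y i ≠ z j)
    (hyz2 : ∀ i j, i ≤ N → 2 ≤ j → j ≤ ρ → ¬ G.Adj (y i) (z j))
    (h0 : ¬ G.Adj (y 0) (z 1))
    (hex : ∃ i, i ≤ K ∧ G.Adj (y i) (z 1))
    (hcomp : (∃ b, K < b ∧ b ≤ N ∧ G.Adj (y b) (z 1)) → ∃ a, a < K ∧ G.Adj (y a) (z 1))
    (hα1 : ∀ i, i ≤ K → G.Adj (y i) (z 1) → r ≤ (K - i) + ρ)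
    (hα2 : ∀ i, K ≤ i → i ≤ N → G.Adj (y i) (z 1) → r ≤ (i - K) + ρ)
    (hβ : ∀ a b, a < K → K ≤ b → b ≤ N → G.Adj (y a) (z 1) → G.Adj (y b) (z 1) →
      r ≤ (K - 1 - a) + 2 + (N - b))
    (hN : r ≤ N - K + 1) : ∃ T : Finset V, ITree G T ∧ 2 * r ≤ T.card := by
  classical
  -- the largest left neighbour
  have left : (∃ a, a < K ∧ G.Adj (y a) (z 1)) →
      ∃ a, a < K ∧ G.Adj (y a) (z 1) ∧ ∀ i, i < K → G.Adj (y i) (z 1) → i ≤ a := by
    rintro ⟨a, ha1, ha2⟩
    set L := (range K).filter fun i => G.Adj (y i) (z 1) with hL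
    have hLm : ∀ i, i ∈ L ↔ i < K ∧ G.Adj (y i) (z 1) := by
      intro i; rw [hL, mem_filter, mem_range]
    have hne : L.Nonempty := ⟨a, (hLm a).2 ⟨ha1, ha2⟩⟩
    have hm := (hLm _).1 (L.max'_mem hne)
    refine ⟨L.max' hne, hm.1, hm.2, ?_⟩
    intro i hi1 hi2
    exact L.le_max' i ((hLm i).2 ⟨hi1, hi2⟩)
  set R := (Icc K N).filter fun i => G.Adj (y i) (z 1) with hR
  have hRm : ∀ i, i ∈ R ↔ (K ≤ i ∧ i ≤ N) ∧ G.Adj (y i) (z 1) := by
    intro i; rw [hR, mem_filter, mem_Icc]
  by_cases hRe : R.Nonempty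
  · have hb1 := R.min'_mem hRe
    have hb2 := R.max'_mem hRe
    have hmin : ∀ i, K ≤ i → i ≤ N → G.Adj (y i) (z 1) → R.min' hRe ≤ i :=
      fun i h1 h2 h3 => R.min'_le i ((hRm i).2 ⟨⟨h1, h2⟩, h3⟩)
    have hmax : ∀ i, K ≤ i → i ≤ N → G.Adj (y i) (z 1) → i ≤ R.max' hRe :=
      fun i h1 h2 h3 => R.le_max' i ((hRm i).2 ⟨⟨h1, h2⟩, h3⟩)
    generalize R.min' hRe = b1 at hb1 hmin
    generalize R.max' hRe = b2 at hb2 hmax
    rw [hRm] at hb1 hb2
    obtain ⟨⟨hb11, hb12⟩, hb13⟩ := hb1
    obtain ⟨⟨hb21, hb22⟩, hb23⟩ := hb2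
    by_cases hbK : b2 = K
    · subst hbK
      obtain ⟨h1, h2⟩ := one_piece hρ hy hyi hz hzi hyz hyz2 b2 b2 N le_rfl hKN le_rfl hb23
        (fun i hi1 hi2 ha => le_antisymm (hmax i hi1 hi2 ha) hi1)
      refine ⟨_, h1, ?_⟩
      rw [h2]
      have := hα2 b2 le_rfl hKN hb23
      omega
    · obtain ⟨a, ha1, ha2, ha3⟩ := left (hcomp ⟨b2, by omega, hb22, hb23⟩)
      have ha0 : a ≠ 0 := by
        rintro rfl
        exact h0 ha2
      have hα := hα2 b1 hb11 hb12 hb13
      have hβ' := hβ a b2 ha1 hb21 hb22 ha2 hb23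
      by_cases hb : b1 < b2
      · obtain ⟨T, hT1, hT2⟩ := two_piece hρ hy hyi hz hzi hyz hyz2 a a (b1 - 1) b2 b2 N le_rfl
          (by omega) (by omega) le_rfl hb22 le_rfl ha2 hb23
          (by
            intro i hi1 hi2 hadj
            by_cases hiK : i < K
            · have := ha3 i hiK hadj; omega
            · have := hmin i (by omega) (by omega) hadj; omega)
          (by
            intro i hi1 hi2 hadj
            have := hmax i (by omega) hi2 hadj; omega)
        refine ⟨T, hT1, ?_⟩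
        omega
      · have hbb : b1 = b2 := le_antisymm (hmin b2 hb21 hb22 hb23) (by omega)
        subst hbb
        have honly : ∀ i, a < i → i ≤ N → G.Adj (y i) (z 1) → i = b1 := by
          intro i hi1 hi2 hadj
          by_cases hiK : i < K
          · have := ha3 i hiK hadj; omega
          · exact le_antisymm (hmax i (by omega) hi2 hadj) (hmin i (by omega) hi2 hadj)
        by_cases haa : G.Adj (y (a - 1)) (z 1)
        · obtain ⟨T, hT1, hT2⟩ := two_piece hρ hy hyi hz hzi hyz hyz2 (a - 1) (a - 1) (a - 1)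
            (a + 1) b1 N le_rfl le_rfl (by omega) (by omega) hb12 le_rfl haa hb13
            (by intro i hi1 hi2 _; omega)
            (by intro i hi1 hi2 hadj; exact honly i (by omega) hi2 hadj)
          refine ⟨T, hT1, ?_⟩
          omega
        · obtain ⟨T, hT1, hT2⟩ := two_piece hρ hy hyi hz hzi hyz hyz2 (a - 1) a a
            (a + 2) b1 N (by omega) le_rfl (by omega) (by omega) hb12 le_rfl ha2 hb13
            (by
              intro i hi1 hi2 hadj
              by_cases hia : i = a
              · exact hia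
              · have : i = a - 1 := by omega
                rw [this] at hadj
                exact absurd hadj haa)
            (by intro i hi1 hi2 hadj; exact honly i (by omega) hi2 hadj)
          refine ⟨T, hT1, ?_⟩
          omega
  · have hnoR : ∀ i, K ≤ i → i ≤ N → ¬ G.Adj (y i) (z 1) := by
      intro i h1 h2 h3
      exact hRe ⟨i, (hRm i).2 ⟨⟨h1, h2⟩, h3⟩⟩
    obtain ⟨a, ha1, ha2, ha3⟩ := left (by
      obtain ⟨i, hi1, hi2⟩ := hex
      refine ⟨i, ?_, hi2⟩
      by_contra hge
      exact hnoR i (by omega) (by omega) hi2)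
    obtain ⟨h1, h2⟩ := one_piece hρ hy hyi hz hzi hyz hyz2 a a N le_rfl (by omega) le_rfl ha2
      (by
        intro i hi1 hi2 hadj
        by_cases hiK : i < K
        · have := ha3 i hiK hadj; omega
        · exact absurd hadj (hnoR i (by omega) hi2))
    refine ⟨_, h1, ?_⟩
    rw [h2]
    have := hα1 a ha1.le ha2
    omega

end core

/-! ### Geodesics -/

theorem geod {W : Type*} (H : SimpleGraph W) {u v : W} (h : H.Reachable u v) :
    ∃ q : ℕ → W, q 0 = u ∧ q (H.dist u v) = v ∧
      (∀ i, i ≤ H.dist u v → H.dist u (q i) = i) ∧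
      (∀ i, i < H.dist u v → H.Adj (q i) (q (i + 1))) := by
  obtain ⟨p, hp⟩ := h.exists_walk_length_eq_dist
  refine ⟨p.getVert, p.getVert_zero, ?_, ?_, ?_⟩
  · rw [← hp]; exact p.getVert_length
  · intro i hi
    have h1 : H.dist u (p.getVert i) ≤ i := by
      have := SimpleGraph.dist_le (p.take i)
      rw [SimpleGraph.Walk.take_length] at this
      omega
    have h2 : H.dist (p.getVert i) v ≤ p.length - i := by
      have := SimpleGraph.dist_le (p.drop i)
      rw [SimpleGraph.Walk.drop_length] at this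
      omega
    have h3 : H.dist u v ≤ H.dist u (p.getVert i) + H.dist (p.getVert i) v :=
      SimpleGraph.Reachable.dist_triangle_left ⟨p.take i⟩ v
    omega
  · intro i hi
    exact p.adj_getVert_succ (by omega)

theorem dist_adj {W : Type*} (H : SimpleGraph W) {u a b : W} (hua : H.Reachable u a)
    (hab : H.Adj a b) : H.dist u b ≤ H.dist u a + 1 := by
  have h1 := hua.dist_triangle_left b
  have h2 : H.dist a b = 1 := SimpleGraph.dist_eq_one_iff_adj.2 hab
  omega

/-- a geodesic is an induced path -/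
theorem geod_adj {W : Type*} (H : SimpleGraph W) {u : W} {d : ℕ} {q : ℕ → W}
    (hr : ∀ i, i ≤ d → H.Reachable u (q i))
    (hd : ∀ i, i ≤ d → H.dist u (q i) = i) (ha : ∀ i, i < d → H.Adj (q i) (q (i + 1)))
    (i j : ℕ) (hi : i ≤ d) (hj : j ≤ d) : H.Adj (q i) (q j) ↔ (i + 1 = j ∨ j + 1 = i) := by
  constructor
  · intro h
    have h1 := dist_adj H (hr i hi) h
    have h2 := dist_adj H (hr j hj) h.symm
    rw [hd i hi, hd j hj] at h1 h2
    have h3 : i ≠ j := by
      rintro rfl
      exact H.irrefl h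
    omega
  · rintro (rfl | rfl)
    · exact ha i (by omega)
    · exact (ha j (by omega)).symm

/-- distance along a walk given by a function -/
theorem dist_along {W : Type*} (H : SimpleGraph W) {q : ℕ → W} (a : ℕ) :
    ∀ b, a ≤ b → (∀ i, a ≤ i → i < b → H.Adj (q i) (q (i + 1))) →
      H.Reachable (q a) (q b) ∧ H.dist (q a) (q b) ≤ b - a := by
  intro b hab
  induction b, hab using Nat.le_induction with
  | base =>
    intro _
    refine ⟨SimpleGraph.Reachable.refl _, ?_⟩
    rw [SimpleGraph.dist_self]; omega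
  | succ b hab ih =>
    intro h
    obtain ⟨h1, h2⟩ := ih (fun i c d => h i c (by omega))
    have h3 := h b hab (by omega)
    refine ⟨h1.trans h3.reachable, ?_⟩
    have := dist_adj H h1 h3
    omega

/-! ### Connected sets -/

/-- `C` is connected -/
def Conn (G : SimpleGraph V) (C : Set V) : Prop :=
  ∀ a ∈ C, ∀ b ∈ C, Relation.ReflTransGen (fun u w => G.Adj u w ∧ w ∈ C) a b

/-- the component of `f` in `D` -/
def Comp (G : SimpleGraph V) (D : Set V) (f : V) : Set V :=
  {w | Relation.ReflTransGen (fun u w => G.Adj u w ∧ w ∈ D) f w}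

theorem comp_self (G : SimpleGraph V) (D : Set V) (f : V) : f ∈ Comp G D f :=
  Relation.ReflTransGen.refl

theorem comp_sub (G : SimpleGraph V) (D : Set V) (f : V) (hf : f ∈ D) : Comp G D f ⊆ D := by
  intro w hw
  have hw' : Relation.ReflTransGen (fun u w => G.Adj u w ∧ w ∈ D) f w := hw
  rcases Relation.ReflTransGen.cases_tail hw' with h | ⟨c, _, hc⟩
  · rw [h]; exact hf
  · exact hc.2

theorem comp_closed (G : SimpleGraph V) (D : Set V) (f : V) {c w : V} (hc : c ∈ Comp G D f)
    (hw : w ∈ D) (h : G.Adj c w) : w ∈ Comp G D f :=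
  Relation.ReflTransGen.tail hc ⟨h, hw⟩

theorem comp_conn (G : SimpleGraph V) (D : Set V) (f : V) : Conn G (Comp G D f) := by
  have h1 : ∀ a ∈ Comp G D f,
      Relation.ReflTransGen (fun u w => G.Adj u w ∧ w ∈ Comp G D f) f a := by
    intro a ha
    have ha' : Relation.ReflTransGen (fun u w => G.Adj u w ∧ w ∈ D) f a := ha
    induction ha' with
    | refl => exact Relation.ReflTransGen.refl
    | tail hb hbc ih => exact (ih hb).tail ⟨hbc.1, ha⟩
  have h2 : ∀ a ∈ Comp G D f,
      Relation.ReflTransGen (fun u w => G.Adj u w ∧ w ∈ Comp G D f) a f := by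
    intro a ha
    have ha' : Relation.ReflTransGen (fun u w => G.Adj u w ∧ w ∈ D) f a := ha
    induction ha' with
    | refl => exact Relation.ReflTransGen.refl
    | tail hb hbc ih => exact Relation.ReflTransGen.head ⟨hbc.1.symm, hb⟩ (ih hb)
  intro a ha b hb
  exact (h2 a ha).trans (h1 b hb)

theorem exit {α : Type*} {R : α → α → Prop} {P : α → Prop} {a b : α}
    (h : Relation.ReflTransGen R a b) (ha : P a) (hb : ¬ P b) :
    ∃ u w, P u ∧ ¬ P w ∧ R u w := by
  induction h with
  | refl => exact absurd ha hb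
  | tail h1 h2 ih =>
    rename_i b c
    by_cases hPb : P b
    · exact ⟨b, c, hPb, hb, h2⟩
    · exact ih hPb

/-! ### The path-following argument -/

/-- a stage of the path-following argument: the induced path `y 0, …, y K` starting at the
pendant vertex `x`, the connected set `C` in front of `y K`, and a vertex `f ∈ C` far from
`y (K - 1)` -/
structure Stage (G : SimpleGraph V) (r : ℕ) (x : V) (C : Set V) (y : ℕ → V) (K : ℕ) (f : V) :
    Prop where
  y0 : y 0 = x
  hK : 1 ≤ K
  adj : ∀ i j, i ≤ K → j ≤ K → (G.Adj (y i) (y j) ↔ (i + 1 = j ∨ j + 1 = i))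
  inj : ∀ i j, i ≤ K → j ≤ K → y i = y j → i = j
  conn : Conn G C
  out : ∀ i, i ≤ K → y i ∉ C
  front : ∃ c ∈ C, G.Adj (y K) c
  back : ∀ i, i < K → ∀ c ∈ C, ¬ G.Adj (y i) c
  bdry : ∀ w, w ∉ C → (∃ c ∈ C, G.Adj w c) → w = y K ∨ ∃ i, i < K ∧ G.Adj (y i) w
  hf : f ∈ C
  far : r ≤ G.dist (y (K - 1)) f

theorem step {G : SimpleGraph V} {r : ℕ} {x : V} {C : Set V} {y : ℕ → V} {K : ℕ} {f : V}
    (hr : 2 ≤ r) (S : Stage G r x C y K f) {f' : V} (hf' : f' ∈ C)
    (hfar : r ≤ G.dist (y K) f') :
    ∃ (C' : Set V) (y' : ℕ → V) (K' : ℕ), C' ⊂ C ∧ Stage G r x C' y' K' f' := by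
  set D : Set V := {w | w ∈ C ∧ ¬ G.Adj (y K) w} with hD
  have hnadj : ¬ G.Adj (y K) f' := by
    intro h
    rw [SimpleGraph.dist_eq_one_iff_adj.2 h] at hfar
    omega
  have hfD : f' ∈ D := ⟨hf', hnadj⟩
  set C' := Comp G D f' with hC'
  have hC'D : C' ⊆ D := comp_sub G D f' hfD
  obtain ⟨c0, hc0, hc0a⟩ := S.front
  have hc0' : c0 ∉ C' := fun h => (hC'D h).2 hc0a
  obtain ⟨u, w, hu, hw, huw, hwC⟩ := exit (P := fun a => a ∈ C') (S.conn f' hf' c0 hc0)
    (comp_self G D f') hc0'
  have hyw : G.Adj (y K) w := by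
    by_contra hn
    exact hw (comp_closed G D f' hu ⟨hwC, hn⟩ huw)
  refine ⟨C', fun i => if i ≤ K then y i else w, K + 1, ?_, ?_⟩
  · refine ⟨fun a ha => (hC'D ha).1, fun h => hw (h hwC)⟩
  · have hle : ∀ i, i ≤ K → (if i ≤ K then y i else w) = y i := fun i hi => if_pos hi
    have hgt : (if K + 1 ≤ K then y (K + 1) else w) = w := if_neg (by omega)
    refine ⟨?_, by omega, ?_, ?_, comp_conn G D f', ?_, ?_, ?_, ?_, comp_self G D f', ?_⟩
    · show (if 0 ≤ K then y 0 else w) = x
      rw [hle 0 (by omega)]; exact S.y0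
    · intro i j hi hj
      show G.Adj (if i ≤ K then y i else w) (if j ≤ K then y j else w) ↔ _
      by_cases h1 : i ≤ K <;> by_cases h2 : j ≤ K
      · rw [hle i h1, hle j h2]; exact S.adj i j h1 h2
      · have : j = K + 1 := by omega
        subst this
        rw [hle i h1, hgt]
        by_cases hiK : i = K
        · subst hiK
          exact ⟨fun _ => Or.inl rfl, fun _ => hyw⟩
        · constructor
          · intro h
            exact absurd h (S.back i (by omega) w hwC)
          · intro h; omega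
      · have : i = K + 1 := by omega
        subst this
        rw [hle j h2, hgt]
        by_cases hjK : j = K
        · subst hjK
          exact ⟨fun _ => Or.inr rfl, fun _ => hyw.symm⟩
        · constructor
          · intro h
            exact absurd h.symm (S.back j (by omega) w hwC)
          · intro h; omega
      · have : i = K + 1 := by omega
        subst this
        have : j = K + 1 := by omega
        subst this
        constructor
        · intro h; exact absurd h G.irrefl
        · intro h; omega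
    · intro i j hi hj h
      have h' : (if i ≤ K then y i else w) = (if j ≤ K then y j else w) := h
      by_cases h1 : i ≤ K <;> by_cases h2 : j ≤ K
      · rw [hle i h1, hle j h2] at h'
        exact S.inj i j h1 h2 h'
      · rw [hle i h1, if_neg h2] at h'
        exact absurd (h' ▸ hwC) (S.out i h1)
      · rw [hle j h2, if_neg h1] at h'
        exact absurd (h' ▸ hwC) (S.out j h2)
      · omega
    · intro i hi
      show (if i ≤ K then y i else w) ∉ C'
      by_cases h1 : i ≤ K
      · rw [hle i h1]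
        exact fun h => S.out i h1 (hC'D h).1
      · rw [if_neg h1]; exact hw
    · refine ⟨u, hu, ?_⟩
      show G.Adj (if K + 1 ≤ K then y (K + 1) else w) u
      rw [hgt]; exact huw.symm
    · intro i hi c hc
      show ¬ G.Adj (if i ≤ K then y i else w) c
      rw [hle i (by omega)]
      by_cases hiK : i = K
      · subst hiK; exact (hC'D hc).2
      · exact S.back i (by omega) c (hC'D hc).1
    · rintro w' hw' ⟨c, hc, hadj⟩
      show w' = (if K + 1 ≤ K then y (K + 1) else w) ∨
        ∃ i, i < K + 1 ∧ G.Adj (if i ≤ K then y i else w) w'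
      right
      by_cases hw'C : w' ∈ C
      · refine ⟨K, by omega, ?_⟩
        rw [hle K le_rfl]
        by_contra hn
        exact hw' (comp_closed G D f' hc ⟨hw'C, hn⟩ hadj.symm)
      · rcases S.bdry w' hw'C ⟨c, (hC'D hc).1, hadj⟩ with h | ⟨i, hi1, hi2⟩
        · exfalso
          rw [h] at hadj
          exact (hC'D hc).2 hadj
        · exact ⟨i, by omega, by rw [hle i (by omega)]; exact hi2⟩
    · show r ≤ G.dist (if K + 1 - 1 ≤ K then y (K + 1 - 1) else w) f'
      rw [if_pos (by omega)]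
      exact hfar

theorem finish {G : SimpleGraph V} (hG : G.Connected) {r : ℕ} (hr : 2 ≤ r) {x : V}
    (hx : ∀ w w', G.Adj x w → G.Adj x w' → w = w') {C : Set V} {y : ℕ → V} {K : ℕ} {f : V}
    (S : Stage G r x C y K f) {g : V} (hg : g ∉ C) (hgfar : r ≤ G.dist (y K) g) :
    ∃ T : Finset V, ITree G T ∧ 2 * r ≤ T.card := by
  classical
  have tri : ∀ a b c : V, G.dist a c ≤ G.dist a b + G.dist b c := fun a b c => hG.dist_triangle
  have dy : ∀ a b, a ≤ b → b ≤ K → G.dist (y a) (y b) ≤ b - a := by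
    intro a b hab hb
    refine (dist_along G a b hab ?_).2
    intro i _ hi
    exact (S.adj i (i + 1) (by omega) (by omega)).2 (Or.inl rfl)
  have hK := S.hK
  -- the path inside `C`
  set H : SimpleGraph V :=
    { Adj := fun a b => G.Adj a b ∧ (a = y K ∨ a ∈ C) ∧ (b = y K ∨ b ∈ C)
      symm := ⟨fun a b h => ⟨h.1.symm, h.2.2, h.2.1⟩⟩
      loopless := ⟨fun a h => G.irrefl h.1⟩ } with hH
  have hHadj : ∀ a b, H.Adj a b ↔ G.Adj a b ∧ (a = y K ∨ a ∈ C) ∧ (b = y K ∨ b ∈ C) :=
    fun a b => Iff.rfl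
  have hreach : H.Reachable (y K) f := by
    obtain ⟨c, hc, hca⟩ := S.front
    have h1 : H.Reachable (y K) c :=
      SimpleGraph.Adj.reachable ((hHadj _ _).2 ⟨hca, Or.inl rfl, Or.inr hc⟩)
    refine h1.trans ?_
    have h2 : ∀ b, Relation.ReflTransGen (fun u w => G.Adj u w ∧ w ∈ C) c b →
        b ∈ C ∧ H.Reachable c b := by
      intro b hb
      induction hb with
      | refl => exact ⟨hc, SimpleGraph.Reachable.refl _⟩
      | tail h3 h4 ih =>
        exact ⟨h4.2, ih.2.trans (SimpleGraph.Adj.reachable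
          ((hHadj _ _).2 ⟨h4.1, Or.inr ih.1, Or.inr h4.2⟩))⟩
    exact (h2 f (S.conn c hc f S.hf)).2
  obtain ⟨q, hq0, hqm, hqd, hqa⟩ := geod H hreach
  set m := H.dist (y K) f with hm
  have hqr : ∀ i, i ≤ m → H.Reachable (y K) (q i) := by
    intro i hi
    have := (dist_along H (q := q) 0 i (by omega) (fun j _ hj => hqa j (by omega))).1
    rwa [hq0] at this
  have hqC : ∀ i, 1 ≤ i → i ≤ m → q i ∈ C := by
    intro i h1 h2
    have h3 := hqa (i - 1) (by omega)
    rw [show i - 1 + 1 = i by omega, hHadj] at h3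
    rcases h3.2.2 with h | h
    · exfalso
      have h4 := hqd i h2
      rw [h, SimpleGraph.dist_self] at h4
      omega
    · exact h
  have hqB : ∀ i, i ≤ m → q i = y K ∨ q i ∈ C := by
    intro i hi
    by_cases h : i = 0
    · left; rw [h, hq0]
    · right; exact hqC i (by omega) hi
  have hqadj : ∀ i j, i ≤ m → j ≤ m → (G.Adj (q i) (q j) ↔ (i + 1 = j ∨ j + 1 = i)) := by
    intro i j hi hj
    rw [← geod_adj H hqr hqd hqa i j hi hj, hHadj]
    exact ⟨fun h => ⟨h, hqB i hi, hqB j hj⟩, fun h => h.1⟩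
  have hqinj : ∀ i j, i ≤ m → j ≤ m → q i = q j → i = j := by
    intro i j hi hj h
    rw [← hqd i hi, ← hqd j hj, h]
  have hqG : ∀ a b, a ≤ b → b ≤ m → G.dist (q a) (q b) ≤ b - a := by
    intro a b hab hb
    refine (dist_along G a b hab ?_).2
    intro i _ hi
    exact ((hHadj _ _).1 (hqa i (by omega))).1
  have hyf : G.dist (y K) f ≤ m := by
    have := hqG 0 m (by omega) le_rfl
    rwa [hq0, hqm, Nat.sub_zero] at this
  have hm1 : r ≤ m + 1 := by
    have h1 := tri (y (K - 1)) (y K) f
    have h2 := dy (K - 1) K (by omega) le_rfl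
    have h3 := S.far
    omega
  -- the long path
  set N := K + m with hN
  set Y : ℕ → V := fun i => if i ≤ K then y i else q (i - K) with hY
  have hYle : ∀ i, i ≤ K → Y i = y i := fun i hi => if_pos hi
  have hYge : ∀ i, K ≤ i → Y i = q (i - K) := by
    intro i hi
    by_cases h : i = K
    · rw [h, hYle K le_rfl, Nat.sub_self, hq0]
    · exact if_neg (by omega)
  have hYC : ∀ i, K < i → i ≤ N → Y i ∈ C := by
    intro i h1 h2
    rw [hYge i h1.le]
    exact hqC _ (by omega) (by omega)
  have hYadj : ∀ i j, i ≤ N → j ≤ N → (G.Adj (Y i) (Y j) ↔ (i + 1 = j ∨ j + 1 = i)) := by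
    have half : ∀ i j, i ≤ j → i ≤ N → j ≤ N →
        (G.Adj (Y i) (Y j) ↔ (i + 1 = j ∨ j + 1 = i)) := by
      intro i j hij hi hj
      by_cases h1 : j ≤ K
      · rw [hYle i (by omega), hYle j h1]
        exact S.adj i j (by omega) h1
      · by_cases h2 : K ≤ i
        · rw [hYge i h2, hYge j (by omega), hqadj _ _ (by omega) (by omega)]
          omega
        · constructor
          · intro h
            rw [hYle i (by omega)] at h
            exact absurd h (S.back i (by omega) _ (hYC j (by omega) hj))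
          · intro h; omega
    intro i j hi hj
    by_cases hij : i ≤ j
    · exact half i j hij hi hj
    · rw [SimpleGraph.adj_comm, half j i (by omega) hj hi]
      tauto
  have hYinj : ∀ i j, i ≤ N → j ≤ N → Y i = Y j → i = j := by
    have half : ∀ i j, i ≤ j → i ≤ N → j ≤ N → Y i = Y j → i = j := by
      intro i j hij hi hj h
      by_cases h1 : j ≤ K
      · rw [hYle i (by omega), hYle j h1] at h
        exact S.inj i j (by omega) h1 h
      · by_cases h2 : K ≤ i
        · rw [hYge i h2, hYge j (by omega)] at h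
          have := hqinj _ _ (by omega) (by omega) h
          omega
        · exfalso
          rw [hYle i (by omega)] at h
          exact S.out i (by omega) (h ▸ hYC j (by omega) hj)
    intro i j hi hj h
    by_cases hij : i ≤ j
    · exact half i j hij hi hj h
    · exact (half j i (by omega) hj hi h.symm).symm
  have hYd : ∀ a b, a ≤ b → b ≤ N → G.dist (Y a) (Y b) ≤ b - a := by
    intro a b hab hb
    refine (dist_along G a b hab ?_).2
    intro i _ hi
    exact (hYadj i (i + 1) (by omega) (by omega)).2 (Or.inl rfl)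
  have hYK : Y K = y K := hYle K le_rfl
  have hYN : Y N = f := by rw [hYge N (by omega), show N - K = m by omega, hqm]
  by_cases hgy : ∃ a, a ≤ K ∧ g = y a
  · obtain ⟨a, ha, rfl⟩ := hgy
    have h1 := dy a K ha le_rfl
    rw [SimpleGraph.dist_comm] at h1
    refine ⟨(Icc a N).image Y, ITree.path Y a N (by omega)
      (fun i j _ h _ h' => hYadj i j h h') (fun i j _ h _ h' => hYinj i j h h'), ?_⟩
    rw [card_img Y a N (fun i j _ h _ h' => hYinj i j h h')]
    omega
  · push Not at hgy
    -- the nearest vertex of the path to `g`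
    obtain ⟨i0, hi0, hmin⟩ := (Icc 0 K).exists_min_image (fun i => G.dist (y i) g)
      ⟨0, mem_Icc.2 ⟨le_rfl, by omega⟩⟩
    rw [mem_Icc] at hi0
    obtain ⟨z, hz0, hzρ, hzd, hza⟩ := geod G (hG.preconnected (y i0) g)
    set ρ := G.dist (y i0) g with hρdef
    have hmin' : ∀ i, i ≤ K → ρ ≤ G.dist (y i) g := fun i hi =>
      hmin i (mem_Icc.2 ⟨by omega, hi⟩)
    have hρ : 1 ≤ ρ := by
      by_contra h
      have h1 : G.dist (y i0) g = 0 := by omega
      have h2 := hG.dist_eq_zero_iff.1 h1
      exact hgy i0 hi0.2 h2.symm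
    have hzg : ∀ j, j ≤ ρ → G.dist (z j) g ≤ ρ - j := by
      intro j hj
      have := (dist_along G (q := z) j ρ hj (fun i _ h => hza i h)).2
      rwa [hzρ] at this
    have hyzd : ∀ i j, i ≤ K → j ≤ ρ → j ≤ G.dist (y i) (z j) := by
      intro i j hi hj
      have h1 := tri (y i) (z j) g
      have h2 := hmin' i hi
      have h3 := hzg j hj
      omega
    have hzy : ∀ i j, i ≤ K → 1 ≤ j → j ≤ ρ → z j ≠ y i := by
      intro i j hi h1 h2 h
      have := hyzd i j hi h2
      rw [h, SimpleGraph.dist_self] at this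
      omega
    have hzy2 : ∀ i j, i ≤ K → 2 ≤ j → j ≤ ρ → ¬ G.Adj (y i) (z j) := by
      intro i j hi h1 h2 h
      have := hyzd i j hi h2
      rw [SimpleGraph.dist_eq_one_iff_adj.2 h] at this
      omega
    have hzC : ∀ k, k < ρ → z (ρ - k) ∉ C := by
      intro k
      induction k with
      | zero =>
        intro _
        rw [Nat.sub_zero, hzρ]; exact hg
      | succ k ih =>
        intro hk hC
        have h1 := ih (by omega)
        have h2 := hza (ρ - (k + 1)) (by omega)
        rw [show ρ - (k + 1) + 1 = ρ - k by omega] at h2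
        rcases S.bdry _ h1 ⟨_, hC, h2.symm⟩ with h | ⟨i, hi1, hi2⟩
        · exact hzy K (ρ - k) le_rfl (by omega) (by omega) h
        · exact hzy2 i (ρ - k) (by omega) (by omega) (by omega) hi2
    have hzC' : ∀ j, 1 ≤ j → j ≤ ρ → z j ∉ C := by
      intro j h1 h2
      have := hzC (ρ - j) (by omega)
      rwa [show ρ - (ρ - j) = j by omega] at this
    have hzadj : ∀ i j, 1 ≤ i → i ≤ ρ → 1 ≤ j → j ≤ ρ →
        (G.Adj (z i) (z j) ↔ (i + 1 = j ∨ j + 1 = i)) := by
      intro i j _ hi _ hj
      exact geod_adj G (fun i _ => hG.preconnected _ _) hzd hza i j hi hj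
    have hzinj : ∀ i j, 1 ≤ i → i ≤ ρ → 1 ≤ j → j ≤ ρ → z i = z j → i = j := by
      intro i j _ hi _ hj h
      rw [← hzd i hi, ← hzd j hj, h]
    have hz1 : G.dist (z 1) g ≤ ρ - 1 := hzg 1 hρ
    refine core (G := G) (y := Y) (z := z) (N := N) (ρ := ρ) K r hK (by omega) hρ hYadj hYinj
      hzadj hzinj ?_ ?_ ?_ ?_ ?_ ?_ ?_ ?_ (by omega)
    · intro i j hi h1 h2 h
      by_cases hiK : i ≤ K
      · rw [hYle i hiK] at h
        exact hzy i j hiK h1 h2 h.symm
      · exact hzC' j h1 h2 (h ▸ hYC i (by omega) hi)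
    · intro i j hi h1 h2 h
      by_cases hiK : i ≤ K
      · rw [hYle i hiK] at h
        exact hzy2 i j hiK h1 h2 h
      · rcases S.bdry (z j) (hzC' j (by omega) h2) ⟨Y i, hYC i (by omega) hi, h.symm⟩ with
          h3 | ⟨k, hk1, hk2⟩
        · exact hzy K j le_rfl (by omega) h2 h3
        · exact hzy2 k j (by omega) h1 h2 hk2
    · intro h
      rw [hYle 0 (by omega), S.y0] at h
      have h1 : G.Adj x (y 1) := by
        rw [← S.y0]
        exact (S.adj 0 1 (by omega) hK).2 (Or.inl rfl)
      exact hzy 1 1 hK le_rfl hρ (hx _ _ h h1)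
    · refine ⟨i0, hi0.2, ?_⟩
      rw [hYle i0 hi0.2]
      have := hza 0 (by omega)
      rwa [hz0] at this
    · rintro ⟨b, hb1, hb2, hb3⟩
      rcases S.bdry (z 1) (hzC' 1 le_rfl hρ) ⟨Y b, hYC b hb1 hb2, hb3.symm⟩ with
        h3 | ⟨k, hk1, hk2⟩
      · exact absurd h3 (hzy K 1 le_rfl le_rfl hρ)
      · exact ⟨k, hk1, by rw [hYle k hk1.le]; exact hk2⟩
    · intro i hi hadj
      have h1 := tri (Y K) (Y i) g
      have h2 := tri (Y i) (z 1) g
      have h3 : G.dist (Y i) (z 1) = 1 := SimpleGraph.dist_eq_one_iff_adj.2 hadj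
      have h4 := hYd i K hi (by omega)
      rw [SimpleGraph.dist_comm] at h4
      rw [hYK] at h1 h4
      omega
    · intro i hi hiN hadj
      have h1 := tri (Y K) (Y i) g
      have h2 := tri (Y i) (z 1) g
      have h3 : G.dist (Y i) (z 1) = 1 := SimpleGraph.dist_eq_one_iff_adj.2 hadj
      have h4 := hYd K i hi hiN
      rw [hYK] at h1 h4
      omega
    · intro a b ha hb hbN hadja hadjb
      have h1 := tri (Y (K - 1)) (Y a) f
      have h2 := tri (Y a) (z 1) f
      have h3 := tri (z 1) (Y b) f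
      have h4 : G.dist (Y a) (z 1) = 1 := SimpleGraph.dist_eq_one_iff_adj.2 hadja
      have h5 : G.dist (z 1) (Y b) = 1 := SimpleGraph.dist_eq_one_iff_adj.2 hadjb.symm
      have h6 := hYd a (K - 1) (by omega) (by omega)
      rw [SimpleGraph.dist_comm] at h6
      have h7 := hYd b N hbN le_rfl
      rw [hYN] at h7
      have h8 := S.far
      rw [← hYle (K - 1) (by omega)] at h8
      omega

theorem main_rec {G : SimpleGraph V} [Finite V] (hG : G.Connected) {r : ℕ} (hr : 2 ≤ r) {x : V}
    (hx : ∀ w w', G.Adj x w → G.Adj x w' → w = w') (hfar : ∀ v, ∃ w, r ≤ G.dist v w) :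
    ∀ (n : ℕ) (C : Set V) (y : ℕ → V) (K : ℕ) (f : V), C.ncard ≤ n → Stage G r x C y K f →
      ∃ T : Finset V, ITree G T ∧ 2 * r ≤ T.card := by
  intro n
  induction n with
  | zero =>
    intro C y K f hC S
    exfalso
    have h1 : C.ncard = 0 := by omega
    rw [Set.ncard_eq_zero (Set.toFinite C)] at h1
    have := S.hf
    rw [h1] at this
    exact this
  | succ n ih =>
    intro C y K f hC S
    obtain ⟨g, hg⟩ := hfar (y K)
    by_cases hgC : g ∈ C
    · obtain ⟨C', y', K', hsub, S'⟩ := step hr S hgC hg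
      have := Set.ncard_lt_ncard hsub (Set.toFinite C)
      exact ih C' y' K' g (by omega) S'
    · exact finish hG hr hx S hgC hg

/-- A connected graph of radius at least `r` with a pendant vertex contains an induced tree
with at least `2r` vertices. -/
theorem pendant {G : SimpleGraph V} [Finite V] (hG : G.Connected) {r : ℕ} (hr : 2 ≤ r) {x y1 : V}
    (hxy : G.Adj x y1) (hx : ∀ w w', G.Adj x w → G.Adj x w' → w = w')
    (hfar : ∀ v, ∃ w, r ≤ G.dist v w) :
    ∃ T : Finset V, ITree G T ∧ 2 * r ≤ T.card := by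
  obtain ⟨f, hf⟩ := hfar x
  have hxne : x ≠ y1 := hxy.ne
  set D : Set V := {w | w ≠ x ∧ w ≠ y1} with hD
  have hfx : f ≠ x := by
    rintro rfl
    rw [SimpleGraph.dist_self] at hf; omega
  have hfy : f ≠ y1 := by
    rintro rfl
    rw [SimpleGraph.dist_eq_one_iff_adj.2 hxy] at hf; omega
  have hfD : f ∈ D := ⟨hfx, hfy⟩
  set C := Comp G D f with hC
  have hCD : C ⊆ D := comp_sub G D f hfD
  -- a vertex of `C` adjacent to `y1`
  have hreach : Relation.ReflTransGen G.Adj f x := by
    have := hG.preconnected f x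
    rwa [SimpleGraph.reachable_iff_reflTransGen] at this
  obtain ⟨u, w, hu, hw, huw⟩ := exit (P := fun a => a ∈ C) hreach (comp_self G D f)
    (fun h => (hCD h).1 rfl)
  have hw' : w = y1 := by
    by_contra hne
    have hwx : w = x := by
      by_contra hne'
      exact hw (comp_closed G D f hu ⟨hne', hne⟩ huw)
    subst hwx
    exact (hCD hu).2 (hx _ _ huw.symm hxy)
  subst hw'
  refine main_rec hG hr hx hfar C.ncard C (fun i => if i = 0 then x else w) 1 f le_rfl ?_
  refine ⟨?_, le_rfl, ?_, ?_, comp_conn G D f, ?_, ⟨u, hu, ?_⟩, ?_, ?_, comp_self G D f, ?_⟩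
  · simp
  · intro i j hi hj
    have hi' : i = 0 ∨ i = 1 := by omega
    have hj' : j = 0 ∨ j = 1 := by omega
    rcases hi' with rfl | rfl <;> rcases hj' with rfl | rfl
    · simp
    · simpa using hxy
    · simpa using hxy.symm
    · simp
  · intro i j hi hj h
    have hi' : i = 0 ∨ i = 1 := by omega
    have hj' : j = 0 ∨ j = 1 := by omega
    rcases hi' with rfl | rfl <;> rcases hj' with rfl | rfl
    · rfl
    · exact absurd h (by simpa using hxne)
    · exact absurd h.symm (by simpa using hxne)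
    · rfl
  · intro i hi
    have hi' : i = 0 ∨ i = 1 := by omega
    rcases hi' with rfl | rfl
    · simp only [if_pos]
      exact fun h => (hCD h).1 rfl
    · simpa using hw
  · simpa using huw.symm
  · intro i hi c hc hadj
    have : i = 0 := by omega
    subst this
    simp only [if_pos] at hadj
    exact (hCD hc).2 (hx _ _ hadj hxy)
  · rintro w' hw' ⟨c, hc, hadj⟩
    by_cases h1 : w' = w
    · left; simpa using h1
    · exfalso
      by_cases h2 : w' = x
      · subst h2
        exact (hCD hc).2 (hx _ _ hadj hxy)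
      · exact hw' (comp_closed G D f hc ⟨h2, h1⟩ hadj.symm)
  · simpa using hf

/-! ### The theorem -/

/-- The radius: the least `k` such that some vertex is at distance at most `k` from all
vertices. -/
noncomputable def rad {V : Type*} (G : SimpleGraph V) : ℕ :=
  sInf {k : ℕ | ∃ v, ∀ u, G.dist v u ≤ k}

/-- The largest number of vertices of an induced subgraph that is a tree. -/
noncomputable def treeNumber {V : Type*} (G : SimpleGraph V) : ℕ :=
  sSup {k : ℕ | ∃ S : Finset V, (G.induce (S : Set V)).IsTree ∧ S.card = k}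

theorem le_treeNumber [Fintype V] {G : SimpleGraph V} {T : Finset V} (hT : ITree G T) :
    T.card ≤ treeNumber G := by
  apply le_csSup
  · refine ⟨Fintype.card V, ?_⟩
    rintro k ⟨S, _, rfl⟩
    exact Finset.card_le_univ S
  · exact ⟨T, hT.isTree, rfl⟩

theorem far_of_rad {G : SimpleGraph V} (v : V) : ∃ w, rad G ≤ G.dist v w := by
  by_contra hcon
  push Not at hcon
  have h0 : 0 < rad G := lt_of_le_of_lt (Nat.zero_le _) (hcon v)
  have h1 : rad G ≤ rad G - 1 := by
    apply Nat.sInf_le
    exact ⟨v, fun u => by have := hcon u; omega⟩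
  omega

theorem path_bound [Fintype V] {G : SimpleGraph V} (hG : G.Connected) :
    rad G + 1 ≤ treeNumber G := by
  obtain ⟨v⟩ := hG.nonempty
  obtain ⟨w, hw⟩ := far_of_rad (G := G) v
  obtain ⟨q, hq0, hqm, hqd, hqa⟩ := geod G (hG.preconnected v w)
  have hadj := geod_adj G (fun i _ => hG.preconnected _ _) hqd hqa
  have hinj : ∀ i j, i ≤ G.dist v w → j ≤ G.dist v w → q i = q j → i = j := by
    intro i j hi hj h
    rw [← hqd i hi, ← hqd j hj, h]
  have hT : ITree G ((Icc 0 (rad G)).image q) := ITree.path q 0 (rad G) (by omega)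
    (fun i j _ h _ h' => hadj i j (by omega) (by omega))
    (fun i j _ h _ h' => hinj i j (by omega) (by omega))
  have h1 := le_treeNumber hT
  rw [card_img q 0 (rad G) (fun i j _ h _ h' => hinj i j (by omega) (by omega))] at h1
  omega

/-- **Main theorem.** Every finite connected graph `G` with at least two vertices satisfies
`tree(G) ≥ 2 rad(G) / δ(G)`. -/
theorem result {V : Type*} [Fintype V] [Nontrivial V] (G : SimpleGraph V) [DecidableRel G.Adj]
    (hG : G.Connected) :
    2 * (rad G : ℝ) / (G.minDegree : ℝ) ≤ (treeNumber G : ℝ) := by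
  classical
  have hp := path_bound hG
  by_cases h0 : G.minDegree = 0
  · rw [h0]
    simp
  · have hpos : (0 : ℝ) < G.minDegree := by
      exact_mod_cast Nat.pos_of_ne_zero h0
    rw [div_le_iff₀ hpos]
    by_cases h1 : G.minDegree = 1
    · rw [h1, Nat.cast_one, mul_one]
      have key : 2 * rad G ≤ treeNumber G := by
        by_cases hr : 2 ≤ rad G
        · obtain ⟨x, hx⟩ := G.exists_minimal_degree_vertex
          rw [h1] at hx
          obtain ⟨y1, hy1, hy2⟩ := SimpleGraph.degree_eq_one_iff_existsUnique_adj.1 hx.symm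
          obtain ⟨T, hT, hTc⟩ := pendant hG hr hy1
            (fun w w' h h' => (hy2 w h).trans (hy2 w' h').symm) (fun v => far_of_rad v)
          exact hTc.trans (le_treeNumber hT)
        · omega
      exact_mod_cast key
    · have h2 : 2 ≤ G.minDegree := by omega
      have key : 2 * rad G ≤ treeNumber G * G.minDegree := by
        calc 2 * rad G = rad G * 2 := by ring
          _ ≤ treeNumber G * G.minDegree := Nat.mul_le_mul (by omega) h2
      exact_mod_cast key

end Pool.Agent.Results.MP_40785c_co.InducedTree
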